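import Mathlib

set_option autoImplicit false

namespace Pool.Agent.Results.MP_b525e0_co.DoubleStarZero

open Finset

/-! ### Definitions -/

/-- Euclidean three-space. -/
abbrev R3 : Type := EuclideanSpace ℝ (Fin 3)

/-- `x` lies in the configuration space `C_G(ℝ³)`: adjacent vertices are at different points. -/
def IsConfiguration {V : Type} (G : SimpleGraph V) (x : V → R3) : Prop :=
  ∀ i j : V, G.Adj i j → x i ≠ x j

/-- the unit vector `u_ij` pointing from `x_i` to `x_j`. -/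
noncomputable def direction {V : Type} (x : V → R3) (i j : V) : R3 :=
  (‖x j - x i‖)⁻¹ • (x j - x i)

/-- first Pauli matrix -/
def sigma1 : Matrix (Fin 2) (Fin 2) ℂ := !![0, 1; 1, 0]

/-- second Pauli matrix -/
def sigma2 : Matrix (Fin 2) (Fin 2) ℂ := !![0, -Complex.I; Complex.I, 0]

/-- third Pauli matrix -/
def sigma3 : Matrix (Fin 2) (Fin 2) ℂ := !![1, 0; 0, -1]

/-- the matrix `u · σ` -/
noncomputable def dotSigma (u : R3) : Matrix (Fin 2) (Fin 2) ℂ :=
  ((u 0 : ℝ) : ℂ) • sigma1 + ((u 1 : ℝ) : ℂ) • sigma2 + ((u 2 : ℝ) : ℂ) • sigma3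

/-- the symplectic form `ω(a,b) = a₁b₂ - a₂b₁` on `ℂ²` -/
def omega (a b : Fin 2 → ℂ) : ℂ := a 0 * b 1 - a 1 * b 0

/-- `ψ` is a unit vector of `ℂ²` with `(u · σ) ψ = ψ`. -/
def IsSpinorOf (u : R3) (ψ : Fin 2 → ℂ) : Prop :=
  ‖ψ 0‖ ^ 2 + ‖ψ 1‖ ^ 2 = 1 ∧ (dotSigma u).mulVec ψ = ψ

/-- A choice of the spinors `ψ_ij` for all ordered pairs `(i,j)` of adjacent vertices
(the set `S_G` is the type `G.Dart`). -/
def IsSpinorChoice {V : Type} (G : SimpleGraph V) (x : V → R3) (ψ : G.Dart → Fin 2 → ℂ) : Prop :=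
  ∀ d : G.Dart, IsSpinorOf (direction x d.fst d.snd) (ψ d)

/-- `Δ` contains exactly one of `(i,j)`, `(j,i)` for every edge. -/
def IsOrientation {V : Type} (G : SimpleGraph V) (Δ : Finset G.Dart) : Prop :=
  ∀ d : G.Dart, (d ∈ Δ ∧ d.symm ∉ Δ) ∨ (d ∉ Δ ∧ d.symm ∈ Δ)

open Classical in
/-- The group `P_G` of the permutations of `S_G` that preserve the first coordinate. -/
noncomputable def fibrePerms {V : Type} [Fintype V] (G : SimpleGraph V) :
    Finset (Equiv.Perm G.Dart) :=
  Finset.univ.filter fun σ => ∀ d : G.Dart, (σ d).fst = d.fst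

/-- the numerator of the amplitude -/
noncomputable def numerator {V : Type} [Fintype V] (G : SimpleGraph V)
    (ψ : G.Dart → Fin 2 → ℂ) (Δ : Finset G.Dart) : ℂ :=
  ∑ σ ∈ fibrePerms G, ∏ d ∈ Δ, omega (ψ (σ d)) (ψ (σ d.symm))

/-- the denominator of the amplitude -/
noncomputable def denominator {V : Type} (G : SimpleGraph V)
    (ψ : G.Dart → Fin 2 → ℂ) (Δ : Finset G.Dart) : ℂ :=
  ∏ d ∈ Δ, omega (ψ d) (ψ d.symm)

/-- The `G`-amplitude computed with the spinors `ψ` and the orientation `Δ`. -/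
noncomputable def amplitude {V : Type} [Fintype V] (G : SimpleGraph V)
    (ψ : G.Dart → Fin 2 → ℂ) (Δ : Finset G.Dart) : ℂ :=
  numerator G ψ Δ / denominator G ψ Δ

/-! ### Spinors -/

theorem spinor_eqs {u : R3} {ψ : Fin 2 → ℂ} (h : IsSpinorOf u ψ) :
    ((u 0 : ℝ) - (u 1 : ℝ) * Complex.I : ℂ) * ψ 1 + (u 2 : ℝ) * ψ 0 = ψ 0 ∧
    ((u 0 : ℝ) + (u 1 : ℝ) * Complex.I : ℂ) * ψ 0 - (u 2 : ℝ) * ψ 1 = ψ 1 := by
  have h2 := h.2
  have e0 := congrFun h2 0
  have e1 := congrFun h2 1
  simp only [dotSigma, sigma1, sigma2, sigma3, Matrix.mulVec, dotProduct, Fin.sum_univ_two,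
    Matrix.add_apply, Matrix.smul_apply, smul_eq_mul, Matrix.of_apply, Matrix.cons_val',
    Matrix.cons_val_zero, Matrix.cons_val_one, Matrix.empty_val', Matrix.cons_val_fin_one] at e0 e1
  constructor
  · linear_combination e0
  · linear_combination e1

theorem isSpinorOf_of_eqs {u : R3} {ψ : Fin 2 → ℂ} (h1 : ‖ψ 0‖ ^ 2 + ‖ψ 1‖ ^ 2 = 1)
    (h2 : ((u 0 : ℝ) - (u 1 : ℝ) * Complex.I : ℂ) * ψ 1 + (u 2 : ℝ) * ψ 0 = ψ 0)
    (h3 : ((u 0 : ℝ) + (u 1 : ℝ) * Complex.I : ℂ) * ψ 0 - (u 2 : ℝ) * ψ 1 = ψ 1) :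
    IsSpinorOf u ψ := by
  refine ⟨h1, ?_⟩
  ext i
  fin_cases i
  · simp only [dotSigma, sigma1, sigma2, sigma3, Matrix.mulVec, dotProduct, Fin.sum_univ_two,
      Matrix.add_apply, Matrix.smul_apply, smul_eq_mul, Matrix.of_apply, Matrix.cons_val',
      Matrix.cons_val_zero, Matrix.cons_val_one, Matrix.empty_val', Matrix.cons_val_fin_one,
      Fin.zero_eta]
    linear_combination h2
  · simp only [dotSigma, sigma1, sigma2, sigma3, Matrix.mulVec, dotProduct, Fin.sum_univ_two,
      Matrix.add_apply, Matrix.smul_apply, smul_eq_mul, Matrix.of_apply, Matrix.cons_val',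
      Matrix.cons_val_zero, Matrix.cons_val_one, Matrix.empty_val', Matrix.cons_val_fin_one,
      Fin.mk_one]
    linear_combination h3


theorem dotSigma_neg (u : R3) : dotSigma (-u) = - dotSigma u := by
  simp only [dotSigma, PiLp.neg_apply, Complex.ofReal_neg, neg_smul]
  abel

/-- spinors of opposite directions are not proportional -/
theorem omega_ne_zero {u : R3} {a b : Fin 2 → ℂ} (ha : IsSpinorOf u a) (hb : IsSpinorOf (-u) b) :
    omega a b ≠ 0 := by
  intro h
  obtain ⟨a1, a2⟩ := spinor_eqs ha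
  obtain ⟨b1, b2⟩ := spinor_eqs hb
  simp only [PiLp.neg_apply, Complex.ofReal_neg] at b1 b2
  have h' : a 0 * b 1 = a 1 * b 0 := by
    have : a 0 * b 1 - a 1 * b 0 = 0 := h
    linear_combination this
  have k1 : a 0 * b 0 = 0 := by linear_combination (-1/2) * b 0 * a1 + (-1/2) * a 0 * b1 +
    (-1/2) * ((u 0 : ℝ) - (u 1 : ℝ) * Complex.I : ℂ) * h'
  have k2 : a 1 * b 1 = 0 := by linear_combination (-1/2) * b 1 * a2 + (-1/2) * a 1 * b2 +
    (1/2) * ((u 0 : ℝ) + (u 1 : ℝ) * Complex.I : ℂ) * h'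
  have e1 : a 0 * b 1 = ((u 2 : ℝ) : ℂ) * (a 0 * b 1) := by
    linear_combination (-b 1) * a1 + ((u 0 : ℝ) - (u 1 : ℝ) * Complex.I : ℂ) * k2
  have e2 : a 1 * b 0 = - (((u 2 : ℝ) : ℂ) * (a 1 * b 0)) := by
    linear_combination (-b 0) * a2 + ((u 0 : ℝ) + (u 1 : ℝ) * Complex.I : ℂ) * k1
  have k3 : a 0 * b 1 = 0 := by
    linear_combination (1/2) * e1 + (1/2) * e2 + (1/2) * (1 + ((u 2 : ℝ) : ℂ)) * h'
  have k4 : a 1 * b 0 = 0 := by rw [← h']; exact k3
  have na := ha.1
  have nb := hb.1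
  rcases mul_eq_zero.1 k1 with h1 | h1
  · rcases mul_eq_zero.1 k2 with h2 | h2
    · rw [h1, h2] at na; norm_num at na
    · rcases mul_eq_zero.1 k4 with h3 | h3
      · rw [h1, h3] at na; norm_num at na
      · rw [h2, h3] at nb; norm_num at nb
  · rcases mul_eq_zero.1 k3 with h2 | h2
    · rcases mul_eq_zero.1 k2 with h3 | h3
      · rw [h2, h3] at na; norm_num at na
      · rw [h1, h3] at nb; norm_num at nb
    · rw [h1, h2] at nb; norm_num at nb

/-- every unit vector has a spinor -/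
theorem exists_spinor (u : R3) (hu : ‖u‖ = 1) : ∃ ψ, IsSpinorOf u ψ := by
  have hn : u 0 ^ 2 + u 1 ^ 2 + u 2 ^ 2 = 1 := by
    have h := EuclideanSpace.norm_sq_eq u
    rw [hu, Fin.sum_univ_three] at h
    simp only [Real.norm_eq_abs, sq_abs] at h
    linarith
  by_cases h2 : u 2 = -1
  · have h0 : u 0 = 0 := by nlinarith [sq_nonneg (u 0), sq_nonneg (u 1)]
    have h1 : u 1 = 0 := by nlinarith [sq_nonneg (u 0), sq_nonneg (u 1)]
    refine ⟨![0, 1], isSpinorOf_of_eqs ?_ ?_ ?_⟩
    · simp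
    · simp [h0, h1]
    · simp [h0, h1, h2]
  · have hlt : 0 < 1 + u 2 := by
      have h3 : -1 ≤ u 2 := by nlinarith [sq_nonneg (u 0), sq_nonneg (u 1)]
      rcases lt_or_eq_of_le h3 with h | h
      · linarith
      · exact absurd h.symm h2
    have hpos : 0 < 2 * (1 + u 2) := by linarith
    have hs : Real.sqrt (2 * (1 + u 2)) ^ 2 = 2 * (1 + u 2) := Real.sq_sqrt hpos.le
    have hs0 : Real.sqrt (2 * (1 + u 2)) ≠ 0 := (Real.sqrt_pos.2 hpos).ne'
    set r := Real.sqrt (2 * (1 + u 2)) with hr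
    have hsC : (r : ℂ) ≠ 0 := by exact_mod_cast hs0
    refine ⟨![((1 + u 2 : ℝ) : ℂ) / r, (((u 0 : ℝ) : ℂ) + ((u 1 : ℝ) : ℂ) * Complex.I) / r],
      isSpinorOf_of_eqs ?_ ?_ ?_⟩
    · have e1 : ‖(((1 + u 2 : ℝ) : ℂ)) / (r : ℂ)‖ ^ 2 = (1 + u 2) ^ 2 / r ^ 2 := by
        rw [norm_div, div_pow, Complex.norm_real, Complex.norm_real, Real.norm_eq_abs,
          Real.norm_eq_abs, sq_abs, sq_abs]
      have e2 : ‖(((u 0 : ℝ) : ℂ) + ((u 1 : ℝ) : ℂ) * Complex.I) / (r : ℂ)‖ ^ 2
          = (u 0 ^ 2 + u 1 ^ 2) / r ^ 2 := by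
        rw [norm_div, div_pow, Complex.norm_real, Real.norm_eq_abs, sq_abs, ← Complex.normSq_eq_norm_sq,
          Complex.normSq_add_mul_I]
      simp only [Matrix.cons_val_zero, Matrix.cons_val_one, Matrix.cons_val_fin_one]
      rw [e1, e2, hs, ← add_div, div_eq_one_iff_eq hpos.ne']
      nlinarith
    · simp only [Matrix.cons_val_zero, Matrix.cons_val_one, Matrix.cons_val_fin_one]
      have hI := Complex.I_sq
      have hnC : ((u 0 : ℝ) : ℂ) ^ 2 + ((u 1 : ℝ) : ℂ) ^ 2 + ((u 2 : ℝ) : ℂ) ^ 2 = 1 := by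
        have h := congrArg Complex.ofReal hn
        push_cast at h
        exact h
      push_cast
      field_simp
      linear_combination hnC - ((u 1 : ℝ) : ℂ) ^ 2 * hI
    · simp only [Matrix.cons_val_zero, Matrix.cons_val_one, Matrix.cons_val_fin_one]
      push_cast
      field_simp
      ring

/-! ### An averaging lemma -/

theorem sum_zero {D V : Type} [Fintype D] [DecidableEq D] [DecidableEq V] (fst : D → V)
    (P : Finset (Equiv.Perm D)) (hP : ∀ σ, σ ∈ P ↔ ∀ d, fst (σ d) = fst d) (d0 d1 : D)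
    (h01 : fst d0 ≠ fst d1) (h : D → D → ℂ)
    (hsum : ∑ e ∈ univ.filter (fun e => fst e = fst d0),
      ∑ e' ∈ univ.filter (fun e => fst e = fst d1), h e e' = 0) :
    ∑ σ ∈ P, h (σ d0) (σ d1) = 0 := by
  -- reindexing
  have key : ∀ e ∈ univ.filter (fun e => fst e = fst d0),
      ∀ e' ∈ univ.filter (fun e => fst e = fst d1),
      ∑ σ ∈ P, h (σ e) (σ e') = ∑ σ ∈ P, h (σ d0) (σ d1) := by
    intro e he e' he'
    rw [mem_filter] at he he'
    have he := he.2
    have he' := he'.2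
    let ρ : Equiv.Perm D := Equiv.swap d0 e * Equiv.swap d1 e'
    have hρ : ∀ d, fst (ρ d) = fst d := by
      have hsw : ∀ a b d : D, fst a = fst b → fst (Equiv.swap a b d) = fst d := by
        intro a b d hab
        rw [Equiv.swap_apply_def]
        split_ifs with h1 h2
        · rw [h1, hab]
        · rw [h2, hab]
        · rfl
      intro d
      rw [Equiv.Perm.mul_apply, hsw _ _ _ he.symm, hsw _ _ _ he'.symm]
    have hρ0 : ρ d0 = e := by
      rw [Equiv.Perm.mul_apply, Equiv.swap_apply_of_ne_of_ne (a := d1) (b := e') (x := d0),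
        Equiv.swap_apply_left]
      · intro h; exact h01 (congrArg fst h)
      · intro h; exact h01 ((congrArg fst h).trans he')
    have hρ1 : ρ d1 = e' := by
      rw [Equiv.Perm.mul_apply, Equiv.swap_apply_left,
        Equiv.swap_apply_of_ne_of_ne]
      · intro h; exact h01 ((congrArg fst h).symm.trans he')
      · intro h; exact h01 (he.symm.trans ((congrArg fst h).symm.trans he'))
    refine Finset.sum_bij' (fun σ _ => σ * ρ) (fun σ _ => σ * ρ⁻¹) ?_ ?_ ?_ ?_ ?_
    · intro σ hσ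
      rw [hP] at hσ ⊢
      intro d
      rw [Equiv.Perm.mul_apply, hσ, hρ]
    · intro σ hσ
      rw [hP] at hσ ⊢
      intro d
      rw [Equiv.Perm.mul_apply, hσ]
      have h1 := hρ (ρ.symm d)
      rw [Equiv.apply_symm_apply] at h1
      exact h1.symm
    · intro σ _; simp
    · intro σ _; simp
    · intro σ _
      change h (σ e) (σ e') = h (σ (ρ d0)) (σ (ρ d1))
      rw [hρ0, hρ1]
  have reindex : ∀ σ ∈ P, ∀ (v : V) (g : D → ℂ),
      ∑ e ∈ univ.filter (fun e => fst e = v), g (σ e) =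
        ∑ e ∈ univ.filter (fun e => fst e = v), g e := by
    intro σ hσ v g
    rw [hP] at hσ
    refine Finset.sum_equiv σ (fun e => ?_) (fun e _ => rfl)
    simp only [mem_filter, mem_univ, true_and, hσ e]
  have h1 : ∑ e ∈ univ.filter (fun e => fst e = fst d0),
      ∑ e' ∈ univ.filter (fun e => fst e = fst d1), ∑ σ ∈ P, h (σ e) (σ e') = 0 := by
    have h2 : ∀ σ ∈ P, ∑ e ∈ univ.filter (fun e => fst e = fst d0),
        ∑ e' ∈ univ.filter (fun e => fst e = fst d1), h (σ e) (σ e') = 0 := by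
      intro σ hσ
      rw [reindex σ hσ (fst d0) (fun e => ∑ e' ∈ univ.filter (fun e => fst e = fst d1), h e (σ e'))]
      rw [← hsum]
      refine Finset.sum_congr rfl fun e _ => ?_
      exact reindex σ hσ (fst d1) (fun e' => h e e')
    calc ∑ e ∈ univ.filter (fun e => fst e = fst d0),
          ∑ e' ∈ univ.filter (fun e => fst e = fst d1), ∑ σ ∈ P, h (σ e) (σ e')
        = ∑ e ∈ univ.filter (fun e => fst e = fst d0), ∑ σ ∈ P,
          ∑ e' ∈ univ.filter (fun e => fst e = fst d1), h (σ e) (σ e') :=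
          Finset.sum_congr rfl fun e _ => Finset.sum_comm
      _ = ∑ σ ∈ P, ∑ e ∈ univ.filter (fun e => fst e = fst d0),
          ∑ e' ∈ univ.filter (fun e => fst e = fst d1), h (σ e) (σ e') := Finset.sum_comm
      _ = 0 := Finset.sum_eq_zero h2
  rw [Finset.sum_congr rfl fun e he => Finset.sum_congr rfl fun e' he' => key e he e' he'] at h1
  simp only [Finset.sum_const, nsmul_eq_mul] at h1
  have c0 : ((univ.filter (fun e => fst e = fst d0)).card : ℂ) ≠ 0 := by
    have : 0 < (univ.filter (fun e => fst e = fst d0)).card :=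
      Finset.card_pos.2 ⟨d0, by simp⟩
    exact_mod_cast this.ne'
  have c1 : ((univ.filter (fun e => fst e = fst d1)).card : ℂ) ≠ 0 := by
    have : 0 < (univ.filter (fun e => fst e = fst d1)).card :=
      Finset.card_pos.2 ⟨d1, by simp⟩
    exact_mod_cast this.ne'
  rcases mul_eq_zero.1 h1 with h2 | h2
  · exact absurd h2 c0
  · rcases mul_eq_zero.1 h2 with h3 | h3
    · exact absurd h3 c1
    · exact h3

/-- changing the orientation multiplies the products by a common sign -/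
theorem prod_orientation {V : Type} (G : SimpleGraph V) (Δ₀ Δ : Finset G.Dart)
    (h0 : IsOrientation G Δ₀) (h1 : IsOrientation G Δ) :
    ∃ ε : ℂ, ∀ g : G.Dart → ℂ, (∀ d, g d.symm = - g d) →
      ∏ d ∈ Δ, g d = ε * ∏ d ∈ Δ₀, g d := by
  classical
  refine ⟨∏ d ∈ Δ₀, (if d ∈ Δ then 1 else -1), fun g hg => ?_⟩
  rw [← Finset.prod_mul_distrib]
  symm
  refine Finset.prod_bij (fun d _ => if d ∈ Δ then d else d.symm) ?_ ?_ ?_ ?_
  · intro d hd
    split_ifs with h
    · exact h
    · rcases h1 d with h2 | h2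
      · exact absurd h2.1 h
      · exact h2.2
  · intro d hd d' hd' h
    have hne : d ≠ d'.symm := by
      intro hc
      rcases h0 d' with h2 | h2
      · exact h2.2 (hc ▸ hd)
      · exact h2.1 hd'
    have hne' : d.symm ≠ d' := by
      intro hc
      apply hne
      rw [← hc, SimpleGraph.Dart.symm_symm]
    split_ifs at h with h2 h3 h3
    · exact h
    · exact absurd h hne
    · exact absurd h hne'
    · have := congrArg SimpleGraph.Dart.symm h
      simpa using this
  · intro e he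
    rcases h0 e with h2 | h2
    · exact ⟨e, h2.1, by simp [he]⟩
    · refine ⟨e.symm, h2.2, ?_⟩
      have : e.symm ∉ Δ := by
        rcases h1 e with h3 | h3
        · exact h3.2
        · exact absurd he h3.1
      simp [this]
  · intro d hd
    split_ifs with h
    · rw [one_mul]
    · rw [hg]; ring

theorem omega_antisymm (a b : Fin 2 → ℂ) : omega b a = - omega a b := by
  simp only [omega]; ring

/-! ### The double star -/

/-- The double star: centres `0` and `1`, which are adjacent; the leaves `2, …, 6` are adjacent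
to `0` and the leaves `7, …, 11` are adjacent to `1`. -/
def doubleStar : SimpleGraph (Fin 12) where
  Adj i j := (i = 0 ∧ (j = 1 ∨ (2 ≤ j ∧ j ≤ 6))) ∨ (i = 1 ∧ (j = 0 ∨ 7 ≤ j)) ∨
    (j = 0 ∧ 2 ≤ i ∧ i ≤ 6) ∨ (j = 1 ∧ 7 ≤ i)
  symm := ⟨by decide⟩
  loopless := ⟨by decide⟩

instance : DecidableRel doubleStar.Adj := fun i j => by
  unfold doubleStar; infer_instance

/-- the direction from `0` to its leaves -/
noncomputable def n0 : R3 := !₂[4 / 5, 0, -3 / 5]

/-- the direction from `1` to its leaves -/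
noncomputable def n1 : R3 := !₂[4 / 5, 0, 3 / 5]

/-- the direction from `0` to `1` -/
noncomputable def e3 : R3 := !₂[0, 0, 1]

/-- the configuration -/
noncomputable def pos (i : Fin 12) : R3 :=
  if i = 0 then 0 else if i = 1 then e3 else if i ≤ 6 then ((i : ℕ) : ℝ) • n0
  else e3 + ((i : ℕ) : ℝ) • n1

theorem norm_n0 : ‖n0‖ = 1 := by
  rw [EuclideanSpace.norm_eq, Fin.sum_univ_three, Real.sqrt_eq_one]
  simp [n0]; norm_num

theorem norm_n1 : ‖n1‖ = 1 := by
  rw [EuclideanSpace.norm_eq, Fin.sum_univ_three, Real.sqrt_eq_one]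
  simp [n1]; norm_num

theorem norm_e3 : ‖e3‖ = 1 := by
  rw [EuclideanSpace.norm_eq, Fin.sum_univ_three, Real.sqrt_eq_one]
  simp [e3]

theorem direction_eq {V : Type} {x : V → R3} {i j : V} {t : ℝ} {n : R3} (ht : 0 < t)
    (hn : ‖n‖ = 1) (h : x j - x i = t • n) : direction x i j = n := by
  rw [direction, h, norm_smul, hn, mul_one, Real.norm_eq_abs, abs_of_pos ht, smul_smul,
    inv_mul_cancel₀ ht.ne', one_smul]

theorem direction_symm {V : Type} (x : V → R3) (i j : V) :
    direction x j i = - direction x i j := by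
  rw [direction, direction, ← neg_sub (x j) (x i), norm_neg, smul_neg]

theorem dir01 : direction pos 0 1 = e3 :=
  direction_eq (t := 1) one_pos norm_e3 (by simp [pos])

theorem dir0 {j : Fin 12} (h2 : 2 ≤ j) (h6 : j ≤ 6) : direction pos 0 j = n0 := by
  have hj0 : j ≠ 0 := by rintro rfl; exact absurd h2 (by decide)
  have hj1 : j ≠ 1 := by rintro rfl; exact absurd h2 (by decide)
  refine direction_eq (t := ((j : ℕ) : ℝ)) ?_ norm_n0 (by simp [pos, hj0, hj1, h6])
  have : 0 < (j : ℕ) := Nat.pos_of_ne_zero fun h => hj0 (Fin.ext h)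
  exact_mod_cast this

theorem dir1 {j : Fin 12} (h7 : 7 ≤ j) : direction pos 1 j = n1 := by
  have hj0 : j ≠ 0 := by rintro rfl; exact absurd h7 (by decide)
  have hj1 : j ≠ 1 := by rintro rfl; exact absurd h7 (by decide)
  have h6 : ¬ j ≤ 6 := by
    intro h
    exact absurd (h7.trans h) (by decide)
  refine direction_eq (t := ((j : ℕ) : ℝ)) ?_ norm_n1 (by simp [pos, hj0, hj1, h6])
  have : 0 < (j : ℕ) := Nat.pos_of_ne_zero fun h => hj0 (Fin.ext h)
  exact_mod_cast this


theorem pos_zero_coord (i : Fin 12) : pos i 0 = if i ≤ 1 then 0 else (4 / 5) * ((i : ℕ) : ℝ) := by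
  unfold pos
  by_cases h0 : i = 0
  · simp [h0]
  · by_cases h1 : i = 1
    · simp [h1, e3]
    · have h2 : ¬ i ≤ 1 := by
        have : ∀ i : Fin 12, i ≠ 0 → i ≠ 1 → ¬ i ≤ 1 := by decide
        exact this i h0 h1
      rw [if_neg h0, if_neg h1, if_neg h2]
      split_ifs
      · simp [n0]; ring
      · simp [n1, e3]; ring

theorem pos_injective : Function.Injective pos := by
  intro i j hij
  have h := congrArg (fun v : R3 => v 0) hij
  simp only [pos_zero_coord] at h
  by_cases hi : i ≤ 1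
  · by_cases hj : j ≤ 1
    · have key : ∀ i j : Fin 12, i ≤ 1 → j ≤ 1 → i = j ∨ (i = 0 ∧ j = 1) ∨ (i = 1 ∧ j = 0) := by
        decide
      rcases key i j hi hj with h1 | ⟨h1, h2⟩ | ⟨h1, h2⟩
      · exact h1
      · exfalso
        have h3 := congrArg (fun v : R3 => v 2) hij
        simp [h1, h2, pos, e3] at h3
      · exfalso
        have h3 := congrArg (fun v : R3 => v 2) hij
        simp [h1, h2, pos, e3] at h3
    · exfalso
      rw [if_pos hi, if_neg hj] at h
      have h0 : j ≠ 0 := by rintro rfl; exact hj (by decide)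
      have : 0 < (j : ℕ) := Nat.pos_of_ne_zero fun h => h0 (Fin.ext h)
      have : (0 : ℝ) < ((j : ℕ) : ℝ) := by exact_mod_cast this
      linarith
  · by_cases hj : j ≤ 1
    · exfalso
      rw [if_neg hi, if_pos hj] at h
      have h0 : i ≠ 0 := by rintro rfl; exact hi (by decide)
      have : 0 < (i : ℕ) := Nat.pos_of_ne_zero fun h => h0 (Fin.ext h)
      have : (0 : ℝ) < ((i : ℕ) : ℝ) := by exact_mod_cast this
      linarith
    · rw [if_neg hi, if_neg hj] at h
      have h1 : ((i : ℕ) : ℝ) = ((j : ℕ) : ℝ) := by linarith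
      exact Fin.ext (by exact_mod_cast h1)

theorem isTree_doubleStar : doubleStar.IsTree := by
  rw [SimpleGraph.isTree_iff_connected_and_card]
  constructor
  · have h : ∀ v : Fin 12, doubleStar.Reachable v 0 := by
      intro v
      by_cases h0 : v = 0
      · rw [h0]
      · have h1 : ∀ v : Fin 12, v ≠ 0 → doubleStar.Adj v 0 ∨ doubleStar.Adj v 1 := by decide
        rcases h1 v h0 with h | h
        · exact h.reachable
        · exact h.reachable.trans (show doubleStar.Adj 1 0 by decide).reachable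
    have : Nonempty (Fin 12) := ⟨0⟩
    exact ⟨fun u v => (h u).trans (h v).symm⟩
  · rw [Nat.card_eq_fintype_card, Nat.card_eq_fintype_card, ← SimpleGraph.edgeFinset_card]
    decide +kernel

/-- the two test spinors -/
noncomputable def chi (b : Fin 12) : Fin 2 → ℂ := if b = 0 then ![-2, 1] else ![-1, 2]


theorem nz {u : R3} {a : Fin 2 → ℂ} (h : IsSpinorOf u a) : ¬ (a 0 = 0 ∧ a 1 = 0) := by
  rintro ⟨h0, h1⟩
  have hn := h.1
  rw [h0, h1] at hn
  norm_num at hn

theorem sp_e3 {a : Fin 2 → ℂ} (h : IsSpinorOf e3 a) : a 1 = 0 := by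
  obtain ⟨p, q⟩ := spinor_eqs h
  simp only [e3, PiLp.toLp_apply, Matrix.cons_val_zero, Matrix.cons_val_one, Matrix.cons_val] at p q
  push_cast at p q
  linear_combination (-1/2) * q

theorem sp_e3' {a : Fin 2 → ℂ} (h : IsSpinorOf (-e3) a) : a 0 = 0 := by
  obtain ⟨p, q⟩ := spinor_eqs h
  simp only [e3, PiLp.neg_apply, PiLp.toLp_apply, Matrix.cons_val_zero, Matrix.cons_val_one,
    Matrix.cons_val] at p q
  push_cast at p q
  linear_combination (-1/2) * p

theorem sp_n0 {a : Fin 2 → ℂ} (h : IsSpinorOf n0 a) : a 1 = 2 * a 0 := by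
  obtain ⟨p, q⟩ := spinor_eqs h
  simp only [n0, PiLp.toLp_apply, Matrix.cons_val_zero, Matrix.cons_val_one, Matrix.cons_val] at p q
  push_cast at p q
  linear_combination (5/4) * p

theorem sp_n0' {a : Fin 2 → ℂ} (h : IsSpinorOf (-n0) a) : a 0 = -2 * a 1 := by
  obtain ⟨p, q⟩ := spinor_eqs h
  simp only [n0, PiLp.neg_apply, PiLp.toLp_apply, Matrix.cons_val_zero, Matrix.cons_val_one,
    Matrix.cons_val] at p q
  push_cast at p q
  linear_combination (-5/2) * p

theorem sp_n1 {a : Fin 2 → ℂ} (h : IsSpinorOf n1 a) : a 0 = 2 * a 1 := by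
  obtain ⟨p, q⟩ := spinor_eqs h
  simp only [n1, PiLp.toLp_apply, Matrix.cons_val_zero, Matrix.cons_val_one, Matrix.cons_val] at p q
  push_cast at p q
  linear_combination (-5/2) * p

theorem sp_n1' {a : Fin 2 → ℂ} (h : IsSpinorOf (-n1) a) : a 1 = -2 * a 0 := by
  obtain ⟨p, q⟩ := spinor_eqs h
  simp only [n1, PiLp.neg_apply, PiLp.toLp_apply, Matrix.cons_val_zero, Matrix.cons_val_one,
    Matrix.cons_val] at p q
  push_cast at p q
  linear_combination (-5/4) * p

theorem chi_zero : chi 0 = ![-2, 1] := by simp [chi]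

theorem chi_one : chi 1 = ![-1, 2] := by simp [chi]

section main

variable {ψ : doubleStar.Dart → Fin 2 → ℂ}

/-- spinors at the centre `0` -/
theorem at_zero (hψ : IsSpinorChoice doubleStar pos ψ) (d : doubleStar.Dart) (h0 : d.fst = 0) :
    omega (ψ d) (chi 0) ≠ 0 ∧
      (ψ d 0 / omega (ψ d) (chi 0) = if d.snd = 1 then 1 else 1 / 5) ∧
      (ψ d 1 / omega (ψ d) (chi 0) = if d.snd = 1 then 0 else 2 / 5) := by
  have h := hψ d
  have hadj := d.adj
  rw [h0] at h hadj
  have key : ∀ j : Fin 12, doubleStar.Adj 0 j → j = 1 ∨ (j ≠ 1 ∧ 2 ≤ j ∧ j ≤ 6) := by decide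
  rw [chi_zero]
  simp only [omega, Matrix.cons_val_zero, Matrix.cons_val_one, Matrix.cons_val_fin_one]
  rcases key _ hadj with h1 | ⟨h1, h2, h6⟩
  · rw [h1, dir01] at h
    have e1 := sp_e3 h
    have e0 : ψ d 0 ≠ 0 := fun h' => nz h ⟨h', e1⟩
    rw [if_pos h1, if_pos h1, e1]
    have : ψ d 0 * 1 - 0 * -2 = ψ d 0 := by ring
    rw [this]
    exact ⟨e0, div_self e0, by simp⟩
  · rw [dir0 h2 h6] at h
    have e1 := sp_n0 h
    have e0 : ψ d 0 ≠ 0 := fun h' => nz h ⟨h', by rw [e1, h', mul_zero]⟩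
    rw [if_neg h1, if_neg h1, e1]
    have : ψ d 0 * 1 - 2 * ψ d 0 * -2 = 5 * ψ d 0 := by ring
    rw [this]
    refine ⟨mul_ne_zero (by norm_num) e0, ?_, ?_⟩
    · field_simp
    · field_simp

/-- spinors at the centre `1` -/
theorem at_one (hψ : IsSpinorChoice doubleStar pos ψ) (d : doubleStar.Dart) (h0 : d.fst = 1) :
    omega (ψ d) (chi 1) ≠ 0 ∧
      (ψ d 0 / omega (ψ d) (chi 1) = if d.snd = 0 then 0 else 2 / 5) ∧
      (ψ d 1 / omega (ψ d) (chi 1) = if d.snd = 0 then 1 else 1 / 5) := by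
  have h := hψ d
  have hadj := d.adj
  rw [h0] at h hadj
  have key : ∀ j : Fin 12, doubleStar.Adj 1 j → j = 0 ∨ (j ≠ 0 ∧ 7 ≤ j) := by decide
  rw [chi_one]
  simp only [omega, Matrix.cons_val_zero, Matrix.cons_val_one, Matrix.cons_val_fin_one]
  rcases key _ hadj with h1 | ⟨h1, h2⟩
  · rw [h1, direction_symm, dir01] at h
    have e1 := sp_e3' h
    have e0 : ψ d 1 ≠ 0 := fun h' => nz h ⟨e1, h'⟩
    rw [if_pos h1, if_pos h1, e1]
    have : 0 * 2 - ψ d 1 * -1 = ψ d 1 := by ring
    rw [this]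
    exact ⟨e0, by simp, div_self e0⟩
  · rw [dir1 h2] at h
    have e1 := sp_n1 h
    have e0 : ψ d 1 ≠ 0 := fun h' => nz h ⟨by rw [e1, h', mul_zero], h'⟩
    rw [if_neg h1, if_neg h1, e1]
    have : 2 * ψ d 1 * 2 - ψ d 1 * -1 = 5 * ψ d 1 := by ring
    rw [this]
    refine ⟨mul_ne_zero (by norm_num) e0, ?_, ?_⟩
    · field_simp
    · field_simp

/-- spinors at the leaves -/
theorem at_leaf (hψ : IsSpinorChoice doubleStar pos ψ) (d : doubleStar.Dart) (h2 : 2 ≤ d.snd) :
    ∃ q : ℂ, ψ d.symm = q • chi d.fst := by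
  have h := hψ d.symm
  have h' : IsSpinorOf (- direction pos d.fst d.snd) (ψ d.symm) := by
    rw [← direction_symm]; exact h
  have hadj := d.adj
  have key : ∀ i j : Fin 12, doubleStar.Adj i j → 2 ≤ j → (i = 0 ∧ j ≤ 6) ∨ (i = 1 ∧ 7 ≤ j) := by
    decide
  rcases key _ _ hadj h2 with ⟨h0, h6⟩ | ⟨h1, h7⟩
  · rw [h0, dir0 h2 h6] at h'
    refine ⟨ψ d.symm 1, ?_⟩
    have e := sp_n0' h'
    rw [h0, chi_zero]
    ext k
    fin_cases k
    · simp [e]; ring
    · simp
  · rw [h1, dir1 h7] at h'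
    refine ⟨- ψ d.symm 0, ?_⟩
    have e := sp_n1' h'
    rw [h1, chi_one]
    ext k
    fin_cases k
    · simp
    · simp [e]; ring


/-- the dart `(0,1)` -/
def d0 : doubleStar.Dart := ⟨(0, 1), by decide⟩

/-- the dart `(1,0)` -/
def d1 : doubleStar.Dart := ⟨(1, 0), by decide⟩

/-- normalised spinors -/
noncomputable def w (ψ : doubleStar.Dart → Fin 2 → ℂ) (d : doubleStar.Dart) : Fin 2 → ℂ :=
  fun k => ψ d k / omega (ψ d) (chi d.fst)

theorem sum_darts_zero (g : Fin 12 → ℂ) :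
    ∑ e ∈ univ.filter (fun e : doubleStar.Dart => e.fst = 0), g e.snd =
      g 1 + g 2 + g 3 + g 4 + g 5 + g 6 := by
  have h1 : ∑ e ∈ univ.filter (fun e : doubleStar.Dart => e.fst = 0), g e.snd =
      ∑ j ∈ univ.filter (fun j => doubleStar.Adj 0 j), g j := by
    refine Finset.sum_bij' (fun e _ => e.snd)
      (fun j hj => ⟨(0, j), (mem_filter.1 hj).2⟩) ?_ ?_ ?_ ?_ ?_
    · intro e he
      rw [mem_filter] at he ⊢
      exact ⟨mem_univ _, he.2 ▸ e.adj⟩
    · intro j hj
      rw [mem_filter]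
      exact ⟨mem_univ _, rfl⟩
    · intro e he
      rw [mem_filter] at he
      apply SimpleGraph.Dart.ext
      exact Prod.ext he.2.symm rfl
    · intro j hj; rfl
    · intro e he; rfl
  rw [h1, show univ.filter (fun j => doubleStar.Adj 0 j) = {1, 2, 3, 4, 5, 6} by decide]
  rw [Finset.sum_insert (by decide), Finset.sum_insert (by decide), Finset.sum_insert (by decide),
    Finset.sum_insert (by decide), Finset.sum_insert (by decide), Finset.sum_singleton]
  ring

theorem sum_darts_one (g : Fin 12 → ℂ) :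
    ∑ e ∈ univ.filter (fun e : doubleStar.Dart => e.fst = 1), g e.snd =
      g 0 + g 7 + g 8 + g 9 + g 10 + g 11 := by
  have h1 : ∑ e ∈ univ.filter (fun e : doubleStar.Dart => e.fst = 1), g e.snd =
      ∑ j ∈ univ.filter (fun j => doubleStar.Adj 1 j), g j := by
    refine Finset.sum_bij' (fun e _ => e.snd)
      (fun j hj => ⟨(1, j), (mem_filter.1 hj).2⟩) ?_ ?_ ?_ ?_ ?_
    · intro e he
      rw [mem_filter] at he ⊢
      exact ⟨mem_univ _, he.2 ▸ e.adj⟩
    · intro j hj
      rw [mem_filter]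
      exact ⟨mem_univ _, rfl⟩
    · intro e he
      rw [mem_filter] at he
      apply SimpleGraph.Dart.ext
      exact Prod.ext he.2.symm rfl
    · intro j hj; rfl
    · intro e he; rfl
  rw [h1, show univ.filter (fun j => doubleStar.Adj 1 j) = {0, 7, 8, 9, 10, 11} by decide]
  rw [Finset.sum_insert (by decide), Finset.sum_insert (by decide), Finset.sum_insert (by decide),
    Finset.sum_insert (by decide), Finset.sum_insert (by decide), Finset.sum_singleton]
  ring

theorem double_sum (hψ : IsSpinorChoice doubleStar pos ψ) :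
    ∑ e ∈ univ.filter (fun e : doubleStar.Dart => e.fst = d0.fst),
      ∑ e' ∈ univ.filter (fun e : doubleStar.Dart => e.fst = d1.fst), omega (w ψ e) (w ψ e') = 0 := by
  have a0 : ∑ e ∈ univ.filter (fun e : doubleStar.Dart => e.fst = 0), w ψ e 0 = 2 := by
    refine (Finset.sum_congr rfl (fun e he => ?_)).trans
      ((sum_darts_zero (fun j : Fin 12 => if j = 1 then (1 : ℂ) else 1 / 5)).trans ?_)
    rotate_left
    · simp; norm_num
    · have he := (mem_filter.1 he).2
      show ψ e 0 / omega (ψ e) (chi e.fst) = _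
      rw [he]
      exact (at_zero hψ e he).2.1
  have a1 : ∑ e ∈ univ.filter (fun e : doubleStar.Dart => e.fst = 0), w ψ e 1 = 2 := by
    refine (Finset.sum_congr rfl (fun e he => ?_)).trans
      ((sum_darts_zero (fun j : Fin 12 => if j = 1 then (0 : ℂ) else 2 / 5)).trans ?_)
    rotate_left
    · simp; norm_num
    · have he := (mem_filter.1 he).2
      show ψ e 1 / omega (ψ e) (chi e.fst) = _
      rw [he]
      exact (at_zero hψ e he).2.2
  have b0 : ∑ e ∈ univ.filter (fun e : doubleStar.Dart => e.fst = 1), w ψ e 0 = 2 := by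
    refine (Finset.sum_congr rfl (fun e he => ?_)).trans
      ((sum_darts_one (fun j : Fin 12 => if j = 0 then (0 : ℂ) else 2 / 5)).trans ?_)
    rotate_left
    · simp; norm_num
    · have he := (mem_filter.1 he).2
      show ψ e 0 / omega (ψ e) (chi e.fst) = _
      rw [he]
      exact (at_one hψ e he).2.1
  have b1 : ∑ e ∈ univ.filter (fun e : doubleStar.Dart => e.fst = 1), w ψ e 1 = 2 := by
    refine (Finset.sum_congr rfl (fun e he => ?_)).trans
      ((sum_darts_one (fun j : Fin 12 => if j = 0 then (1 : ℂ) else 1 / 5)).trans ?_)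
    rotate_left
    · simp; norm_num
    · have he := (mem_filter.1 he).2
      show ψ e 1 / omega (ψ e) (chi e.fst) = _
      rw [he]
      exact (at_one hψ e he).2.2
  have hd0 : d0.fst = 0 := rfl
  have hd1 : d1.fst = 1 := rfl
  rw [hd0, hd1]
  simp only [omega, Finset.sum_sub_distrib, ← Finset.mul_sum, ← Finset.sum_mul, a0, a1, b0, b1]
  norm_num


/-- leaf darts at the centre `b` -/
def leafDarts (b : Fin 12) : Finset doubleStar.Dart := univ.filter fun d => d.fst = b ∧ 2 ≤ d.snd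

/-- the standard orientation -/
def stdOrientation : Finset doubleStar.Dart := univ.filter fun d => d.fst < d.snd

theorem isOrientation_std : IsOrientation doubleStar stdOrientation := by
  intro d
  have hne : d.fst ≠ d.snd := d.adj.ne
  simp only [stdOrientation, mem_filter, mem_univ, true_and]
  rcases lt_or_gt_of_ne hne with h | h
  · left
    exact ⟨h, not_lt.2 h.le⟩
  · right
    exact ⟨not_lt.2 h.le, h⟩

theorem eq_d0 (d : doubleStar.Dart) : d = d0 ↔ d.fst = 0 ∧ d.snd = 1 := by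
  constructor
  · rintro rfl; exact ⟨rfl, rfl⟩
  · rintro ⟨h1, h2⟩
    apply SimpleGraph.Dart.ext
    exact Prod.ext h1 h2

theorem eq_d1 (d : doubleStar.Dart) : d = d1 ↔ d.fst = 1 ∧ d.snd = 0 := by
  constructor
  · rintro rfl; exact ⟨rfl, rfl⟩
  · rintro ⟨h1, h2⟩
    apply SimpleGraph.Dart.ext
    exact Prod.ext h1 h2

theorem std_eq : stdOrientation = insert d0 (leafDarts 0 ∪ leafDarts 1) := by
  ext d
  have key : ∀ i j : Fin 12, doubleStar.Adj i j →
      (i < j ↔ (i = 0 ∧ j = 1) ∨ (i = 0 ∧ 2 ≤ j) ∨ (i = 1 ∧ 2 ≤ j)) := by decide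
  simp only [stdOrientation, leafDarts, mem_filter, mem_univ, true_and, mem_insert, mem_union,
    eq_d0]
  exact key _ _ d.adj

theorem fibre_zero : univ.filter (fun e : doubleStar.Dart => e.fst = 0) =
    insert d0 (leafDarts 0) := by
  ext d
  have key : ∀ i j : Fin 12, doubleStar.Adj i j →
      (i = 0 ↔ (i = 0 ∧ j = 1) ∨ (i = 0 ∧ 2 ≤ j)) := by decide
  simp only [leafDarts, mem_filter, mem_univ, true_and, mem_insert, eq_d0]
  exact key _ _ d.adj

theorem fibre_one : univ.filter (fun e : doubleStar.Dart => e.fst = 1) =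
    insert d1 (leafDarts 1) := by
  ext d
  have key : ∀ i j : Fin 12, doubleStar.Adj i j →
      (i = 1 ↔ (i = 1 ∧ j = 0) ∨ (i = 1 ∧ 2 ≤ j)) := by decide
  simp only [leafDarts, mem_filter, mem_univ, true_and, mem_insert, eq_d1]
  exact key _ _ d.adj

theorem d0_not_mem : d0 ∉ leafDarts 0 ∪ leafDarts 1 := by
  simp only [leafDarts, mem_filter, mem_univ, true_and, mem_union, not_or]
  constructor
  · rintro ⟨_, h⟩; exact absurd h (by decide)
  · rintro ⟨_, h⟩; exact absurd h (by decide)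

theorem d1_not_mem : d1 ∉ leafDarts 1 := by
  simp only [leafDarts, mem_filter, mem_univ, true_and]
  rintro ⟨_, h⟩; exact absurd h (by decide)

theorem leaf_disjoint : Disjoint (leafDarts 0) (leafDarts 1) := by
  rw [Finset.disjoint_left]
  intro d h0 h1
  have h0 := (mem_filter.1 h0).2.1
  have h1 := (mem_filter.1 h1).2.1
  rw [h0] at h1
  exact absurd h1 (by decide)

theorem perm_leaf (σ : Equiv.Perm doubleStar.Dart) (hσ : ∀ d : doubleStar.Dart, (σ d).fst = d.fst)
    (d : doubleStar.Dart) (h2 : 2 ≤ d.snd) : σ d.symm = d.symm := by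
  have key : ∀ i j k : Fin 12, doubleStar.Adj i j → doubleStar.Adj i k → 2 ≤ i → j = k := by
    decide
  have h1 : (σ d.symm).fst = d.snd := hσ d.symm
  have h3 : (σ d.symm).snd = d.fst := by
    refine key d.snd _ _ ?_ d.adj.symm h2
    rw [← h1]
    exact (σ d.symm).adj
  apply SimpleGraph.Dart.ext
  exact Prod.ext h1 h3

theorem prod_fibre (σ : Equiv.Perm doubleStar.Dart)
    (hσ : ∀ d : doubleStar.Dart, (σ d).fst = d.fst) (b : Fin 12) (g : doubleStar.Dart → ℂ) :
    ∏ e ∈ univ.filter (fun e : doubleStar.Dart => e.fst = b), g (σ e) =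
      ∏ e ∈ univ.filter (fun e : doubleStar.Dart => e.fst = b), g e := by
  refine Finset.prod_equiv σ (fun e => ?_) (fun e _ => rfl)
  simp only [mem_filter, mem_univ, true_and, hσ e]

/-- the product over the standard orientation depends only on the spinors which are put on the
central edge -/
theorem prod_formula (hψ : IsSpinorChoice doubleStar pos ψ) :
    ∃ K : ℂ, ∀ σ : Equiv.Perm doubleStar.Dart, (∀ d : doubleStar.Dart, (σ d).fst = d.fst) →
      ∏ d ∈ stdOrientation, omega (ψ (σ d)) (ψ (σ d.symm)) =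
        K * omega (w ψ (σ d0)) (w ψ (σ d1)) := by
  choose q hq using fun (d : {d : doubleStar.Dart // 2 ≤ d.snd}) => at_leaf hψ d.1 d.2
  let q' : doubleStar.Dart → ℂ := fun d => if h : 2 ≤ d.snd then q ⟨d, h⟩ else 0
  have hq' : ∀ d : doubleStar.Dart, 2 ≤ d.snd → ψ d.symm = q' d • chi d.fst := by
    intro d hd
    show ψ d.symm = (if h : 2 ≤ d.snd then q ⟨d, h⟩ else 0) • chi d.fst
    rw [dif_pos hd]
    exact hq ⟨d, hd⟩
  let C : Fin 12 → ℂ := fun b =>
    ∏ e ∈ univ.filter (fun e : doubleStar.Dart => e.fst = b), omega (ψ e) (chi b)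
  let Q : Fin 12 → ℂ := fun b => ∏ e ∈ leafDarts b, q' e
  refine ⟨Q 0 * C 0 * Q 1 * C 1, fun σ hσ => ?_⟩
  have leafprod : ∀ b : Fin 12, ∏ d ∈ leafDarts b, omega (ψ (σ d)) (ψ (σ d.symm)) =
      Q b * ∏ d ∈ leafDarts b, omega (ψ (σ d)) (chi b) := by
    intro b
    show _ = (∏ e ∈ leafDarts b, q' e) * _
    rw [← Finset.prod_mul_distrib]
    refine Finset.prod_congr rfl fun d hd => ?_
    have hd := (mem_filter.1 hd).2
    rw [perm_leaf σ hσ d hd.2, hq' d hd.2, hd.1]
    simp only [omega, Pi.smul_apply, smul_eq_mul]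
    ring
  have hC0 : C 0 = omega (ψ (σ d0)) (chi 0) * ∏ d ∈ leafDarts 0, omega (ψ (σ d)) (chi 0) := by
    have h := prod_fibre σ hσ 0 (fun e => omega (ψ e) (chi 0))
    rw [fibre_zero, Finset.prod_insert (fun h => d0_not_mem (mem_union_left _ h))] at h
    rw [h]
    show (∏ e ∈ univ.filter (fun e : doubleStar.Dart => e.fst = 0), omega (ψ e) (chi 0)) = _
    rw [fibre_zero]
  have hC1 : C 1 = omega (ψ (σ d1)) (chi 1) * ∏ d ∈ leafDarts 1, omega (ψ (σ d)) (chi 1) := by
    have h := prod_fibre σ hσ 1 (fun e => omega (ψ e) (chi 1))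
    rw [fibre_one, Finset.prod_insert d1_not_mem] at h
    rw [h]
    show (∏ e ∈ univ.filter (fun e : doubleStar.Dart => e.fst = 1), omega (ψ e) (chi 1)) = _
    rw [fibre_one]
  have n0 : omega (ψ (σ d0)) (chi 0) ≠ 0 := (at_zero hψ (σ d0) (hσ d0)).1
  have n1 : omega (ψ (σ d1)) (chi 1) ≠ 0 := (at_one hψ (σ d1) (hσ d1)).1
  rw [std_eq, Finset.prod_insert d0_not_mem, Finset.prod_union leaf_disjoint, leafprod 0,
    leafprod 1, hC0, hC1]
  have hs : d0.symm = d1 := rfl
  have w0 : ∀ k, w ψ (σ d0) k = ψ (σ d0) k / omega (ψ (σ d0)) (chi 0) := by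
    intro k
    show ψ (σ d0) k / omega (ψ (σ d0)) (chi (σ d0).fst) = _
    rw [show (σ d0).fst = 0 from hσ d0]
  have w1 : ∀ k, w ψ (σ d1) k = ψ (σ d1) k / omega (ψ (σ d1)) (chi 1) := by
    intro k
    show ψ (σ d1) k / omega (ψ (σ d1)) (chi (σ d1).fst) = _
    rw [show (σ d1).fst = 1 from hσ d1]
  have hw : omega (w ψ (σ d0)) (w ψ (σ d1)) = omega (ψ (σ d0)) (ψ (σ d1)) /
      (omega (ψ (σ d0)) (chi 0) * omega (ψ (σ d1)) (chi 1)) := by
    change w ψ (σ d0) 0 * w ψ (σ d1) 1 - w ψ (σ d0) 1 * w ψ (σ d1) 0 =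
      (ψ (σ d0) 0 * ψ (σ d1) 1 - ψ (σ d0) 1 * ψ (σ d1) 0) / _
    rw [w0, w0, w1, w1]
    generalize omega (ψ (σ d0)) (chi 0) = o0 at *
    generalize omega (ψ (σ d1)) (chi 1) = o1 at *
    field_simp
  rw [hw, hs]
  field_simp

theorem numerator_zero (hψ : IsSpinorChoice doubleStar pos ψ) (Δ : Finset doubleStar.Dart)
    (hΔ : IsOrientation doubleStar Δ) : numerator doubleStar ψ Δ = 0 := by
  classical
  obtain ⟨ε, hε⟩ := prod_orientation doubleStar stdOrientation Δ isOrientation_std hΔ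
  obtain ⟨K, hK⟩ := prod_formula hψ
  have hP : ∀ σ, σ ∈ fibrePerms doubleStar ↔ ∀ d : doubleStar.Dart, (σ d).fst = d.fst := by
    intro σ
    simp [fibrePerms]
  have h1 : numerator doubleStar ψ Δ =
      ∑ σ ∈ fibrePerms doubleStar, (ε * K) * omega (w ψ (σ d0)) (w ψ (σ d1)) := by
    refine Finset.sum_congr rfl fun σ hσ => ?_
    rw [hε (fun d => omega (ψ (σ d)) (ψ (σ d.symm))) (fun d => by
      rw [SimpleGraph.Dart.symm_symm]
      exact omega_antisymm _ _), hK σ ((hP σ).1 hσ), mul_assoc]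
  rw [h1, ← Finset.mul_sum]
  have h2 := sum_zero (fun d : doubleStar.Dart => d.fst) (fibrePerms doubleStar) hP d0 d1
    (by decide) (fun e e' => omega (w ψ e) (w ψ e')) (by
      exact double_sum hψ)
  rw [h2, mul_zero]

end main

/-- **Negative answer to Q1.** There are a tree `G` on twelve vertices and a configuration `x` of
twelve distinct points of `ℝ³` for which the amplitude vanishes: for every choice of the spinors
and of the orientation, the denominator is nonzero and the amplitude is zero (and such choices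
exist). -/
theorem result : ∃ (G : SimpleGraph (Fin 12)) (x : Fin 12 → R3),
    G.IsTree ∧ Function.Injective x ∧ IsConfiguration G x ∧
    (∃ ψ : G.Dart → Fin 2 → ℂ, IsSpinorChoice G x ψ) ∧
    (∃ Δ : Finset G.Dart, IsOrientation G Δ) ∧
    ∀ (ψ : G.Dart → Fin 2 → ℂ) (Δ : Finset G.Dart), IsSpinorChoice G x ψ → IsOrientation G Δ →
      denominator G ψ Δ ≠ 0 ∧ amplitude G ψ Δ = 0 := by
  refine ⟨doubleStar, pos, isTree_doubleStar, pos_injective,
    fun i j h hc => h.ne (pos_injective hc), ?_, ⟨stdOrientation, isOrientation_std⟩, ?_⟩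
  · have h : ∀ d : doubleStar.Dart, ∃ ψ, IsSpinorOf (direction pos d.fst d.snd) ψ := by
      intro d
      apply exists_spinor
      have hne : pos d.snd - pos d.fst ≠ 0 := by
        rw [sub_ne_zero]
        exact fun h => d.adj.ne (pos_injective h).symm
      rw [direction, norm_smul, norm_inv, norm_norm]
      exact inv_mul_cancel₀ (norm_ne_zero_iff.2 hne)
    choose ψ hψ using h
    exact ⟨ψ, hψ⟩
  · intro ψ Δ hψ hΔ
    refine ⟨?_, ?_⟩
    · rw [denominator, Finset.prod_ne_zero_iff]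
      intro d _
      refine omega_ne_zero (hψ d) ?_
      rw [← direction_symm]
      exact hψ d.symm
    · rw [amplitude, numerator_zero hψ Δ hΔ, zero_div]

end Pool.Agent.Results.MP_b525e0_co.DoubleStarZero
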